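import Pool.Agent.Y880.RS.P3f
import Pool.Agent.U621.RL.Lim

/-!
# Patterns of primes repeated along narrow progressions, and their limit points

Attach, by any rule whatsoever, to every element `p` of a dense set `S` of primes `m` further primes
`p + h_1, ..., p + h_m` at distance at most `C log p`. Then:

* (1) a positive proportion of ALL the vectors `h` of size `C log Y` are attached by the rule to all the terms of
  very many narrow arithmetic progressions `a, a + d, ..., a + (k - 1) d` in `S`, `S` contained in an interval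
  `(y, y + Y]` which may be as short as a power of its position;
* (3) the limit points of the normalised vectors `h / log a` which the rule repeats along such progressions form
  a set of positive Lebesgue measure in `ℝ ^ m`, bounded below in terms of `k`, `m`, `C` and the upper density of
  `S` only.

(2) and (4) are the same statements for the vectors of the `m` prime gaps which follow `p`, for arbitrary dense
`S`. For `S` the set of all primes and without the progressions (4) goes back to Erdős and Ricci (`m = 1`) and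
Hildebrand and Maier.

(1) and (2) are assembled from the library `Pool.Agent.Y880.RS` (starting files, not handed in there), the limit
points (3), (4) are in `Pool.Agent.U621.RL`.
-/

set_option autoImplicit false

open Finset MeasureTheory

namespace Pool.Agent.Results.MP_8923e7_nt.LimitPatterns

/-- The prime `p` is followed by the prime gaps `g 0, g 1, ..., g (m - 1)`. -/
def FollowedByGaps {m : ℕ} (g : Fin m → ℕ) (p : ℕ) : Prop :=
  ∃ n : ℕ, Nat.nth Nat.Prime n = p ∧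
    ∀ i : Fin m, Nat.nth Nat.Prime (n + i + 1) = Nat.nth Nat.Prime (n + i) + g i

/-- The `m` prime gaps after the prime `p` (`p` is the prime number `π(p - 1)`, counted from `0`). -/
noncomputable def gapVector (m p : ℕ) : Fin m → ℕ := fun i =>
  Nat.nth Nat.Prime (Nat.count Nat.Prime p + i + 1) - Nat.nth Nat.Prime (Nat.count Nat.Prime p + i)

/-- The limit points `x` of the vectors `H a / log a` which are repeated along progressions in `S`: for every
`ε > 0` there are arbitrarily large `a` and `1 ≤ d ≤ (log a) ^ B` such that `a, a + d, ..., a + (k - 1) d` lie in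
`S`, `H` takes the same value at all of them, and `H a / log a` is within `ε` of `x`. -/
def LimitSet {m : ℕ} (k B : ℕ) (S : Set ℕ) (H : ℕ → Fin m → ℕ) : Set (Fin m → ℝ) :=
  {x | ∀ ε : ℝ, 0 < ε → ∀ N : ℕ, ∃ a d : ℕ, N ≤ a ∧ 1 ≤ d ∧ (d : ℝ) ≤ Real.log a ^ B ∧
    (∀ j < k, a + j * d ∈ S ∧ H (a + j * d) = H a) ∧ ∀ i, |(H a i : ℝ) / Real.log a - x i| < ε}

/-- the finitary form (from the library) -/
theorem finitary (k m A : ℕ) (hk : 2 ≤ k) (hA : 1 ≤ A) (δ C : ℝ) (hδ : 0 < δ) :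
    ∃ B : ℕ, ∃ c C' : ℝ, 0 < c ∧ ∃ Y₀ : ℕ, ∀ y Y : ℕ, Y₀ ≤ Y → y + Y ≤ Y ^ A →
      ∀ S : Finset ℕ, (∀ p ∈ S, p.Prime ∧ y < p ∧ p ≤ y + Y) → δ * (Y / Real.log Y) ≤ S.card →
      (∀ H : ℕ → Fin m → ℕ, (∀ p ∈ S, Function.Injective (H p) ∧
          ∀ i, 1 ≤ H p i ∧ (H p i : ℝ) ≤ C * Real.log Y ∧ (p + H p i).Prime) →
        ∃ G : Finset (Fin m → ℕ), c * Real.log Y ^ m ≤ G.card ∧ ∀ h ∈ G,
          ∃ W ⊆ S, Y / Real.log Y ^ B ≤ W.card ∧ ∀ a ∈ W, ∃ d : ℕ, 1 ≤ d ∧
            (d : ℝ) ≤ Real.log Y ^ B ∧ ∀ j < k, a + j * d ∈ S ∧ H (a + j * d) = h) ∧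
      ∃ G : Finset (Fin m → ℕ), c * Real.log Y ^ m ≤ G.card ∧ ∀ g ∈ G,
        (∀ i, 1 ≤ g i ∧ (g i : ℝ) ≤ C' * Real.log Y) ∧
        ∃ W ⊆ S, Y / Real.log Y ^ B ≤ W.card ∧ ∀ a ∈ W, ∃ d : ℕ, 1 ≤ d ∧
          (d : ℝ) ≤ Real.log Y ^ B ∧ ∀ j < k, a + j * d ∈ S ∧ FollowedByGaps g (a + j * d) := by
  obtain ⟨B₁, c₁, hc₁, Y₁, h1⟩ := Pool.Agent.Y880.RS.P3.pat_main k m A hk hA δ (max C 1 + 1) hδ
    (by have := le_max_right C 1; linarith)
  obtain ⟨B₂, c₂, C', hc₂, Y₂, h2⟩ := Pool.Agent.Y880.RS.P3.pat_gaps k m A hk hA δ hδ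
  obtain ⟨Y₃, hY₃⟩ := Pool.Agent.Y880.RS.log_ev 1
  refine ⟨max B₁ B₂, min c₁ c₂, C', lt_min hc₁ hc₂, max (max Y₁ Y₂) (max Y₃ 1), ?_⟩
  intro y Y hY hyY S hS hSc
  have hY1 : Y₁ ≤ Y := ((le_max_left _ _).trans (le_max_left _ _)).trans hY
  have hY2 : Y₂ ≤ Y := ((le_max_right _ _).trans (le_max_left _ _)).trans hY
  have hY3 : Y₃ ≤ Y := ((le_max_left _ _).trans (le_max_right _ _)).trans hY
  have hl : 1 ≤ Real.log Y := hY₃ Y hY3
  have hpw : ∀ {a b : ℕ}, a ≤ b → Real.log Y ^ a ≤ Real.log Y ^ b := fun h => pow_le_pow_right₀ hl h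
  have hdiv : ∀ {a b : ℕ}, a ≤ b → (Y : ℝ) / Real.log Y ^ b ≤ Y / Real.log Y ^ a := fun {a b} h => by
    apply div_le_div_of_nonneg_left (Nat.cast_nonneg _) (by positivity) (hpw h)
  refine ⟨fun H hH => ?_, ?_⟩
  · obtain ⟨K, hK⟩ : ∃ K, K = ⌈max C 1 * Real.log Y⌉₊ := ⟨_, rfl⟩
    have hK1 : max C 1 * Real.log Y ≤ K := by rw [hK]; exact Nat.le_ceil _
    have hK2 : (K : ℝ) ≤ (max C 1 + 1) * Real.log Y := by
      have h3 := (Nat.ceil_lt_add_one (show 0 ≤ max C 1 * Real.log Y by positivity)).le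
      rw [← hK] at h3
      linarith
    have hK3 : Real.log Y ≤ K := by
      have h3 : 1 * Real.log Y ≤ max C 1 * Real.log Y := by gcongr; exact le_max_right _ _
      linarith
    obtain ⟨G, _, hGc, hG⟩ := h1 y Y K hY1 hyY hK3 hK2 S H (fun p hp => by
      obtain ⟨h4, h5, h6⟩ := hS p hp
      obtain ⟨h7, h8⟩ := hH p hp
      refine ⟨h4, h5, h6, ?_, h7, fun i => (h8 i).2.2⟩
      rw [Pool.Agent.Y880.RS.P3.mem_box]
      intro i
      refine ⟨(h8 i).1, ?_⟩
      have h9 : (H p i : ℝ) ≤ K := (h8 i).2.1.trans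
        ((mul_le_mul_of_nonneg_right (le_max_left C 1) (by positivity)).trans hK1)
      exact_mod_cast h9) hSc
    refine ⟨G, (mul_le_mul_of_nonneg_right (min_le_left _ _) (by positivity)).trans hGc, fun h hh => ?_⟩
    obtain ⟨W, hW, hWc, hWm⟩ := hG h hh
    refine ⟨W, hW, (hdiv (le_max_left _ _)).trans hWc, fun a ha => ?_⟩
    obtain ⟨d, hd1, hd2, hd3⟩ := hWm a ha
    exact ⟨d, hd1, hd2.trans (hpw (le_max_left _ _)), hd3⟩
  · obtain ⟨G, hGc, hG⟩ := h2 y Y hY2 hyY S (fun p hp => mem_Ioc.2 (hS p hp).2)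
      (fun p hp => (hS p hp).1) hSc
    refine ⟨G, (mul_le_mul_of_nonneg_right (min_le_right _ _) (by positivity)).trans hGc, fun g hg => ?_⟩
    obtain ⟨hg1, W, hW, hWc, hWm⟩ := hG g hg
    refine ⟨hg1, W, hW, (hdiv (le_max_right _ _)).trans hWc, fun a ha => ?_⟩
    obtain ⟨d, hd1, hd2, hd3⟩ := hWm a ha
    exact ⟨d, hd1, hd2.trans (hpw (le_max_right _ _)), hd3⟩

theorem gapVector_eq {m : ℕ} {g : Fin m → ℕ} {p : ℕ} (h : FollowedByGaps g p) : gapVector m p = g := by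
  obtain ⟨n, rfl, hn⟩ := h
  funext i
  have h1 : Nat.count Nat.Prime (Nat.nth Nat.Prime n) = n :=
    Nat.count_nth_of_infinite Nat.infinite_setOfPred_prime n
  unfold gapVector
  rw [h1, hn i]
  omega

/-- **Patterns repeated along narrow progressions in dense sets of primes, and their limit points.**
Let `k ≥ 2`, `m ≥ 0`, `A ≥ 1` and `δ > 0`, `C` be real. There are `B`, `c > 0` and `C'` such that the following
holds.

(1), (2): There is `Y₀` such that for all `Y ≥ Y₀`, all `y` with `y + Y ≤ Y ^ A` and every set `S` of at least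
`δ Y / log Y` primes in `(y, y + Y]`:

(1) Let `H p`, `p ∈ S`, be arbitrary vectors of `m` different integers `1 ≤ H p i ≤ C log Y` for which all
`p + H p i` are prime. There is a set `G` of at least `c (log Y) ^ m` vectors `h` such that for each `h ∈ G` at
least `Y / (log Y) ^ B` elements `a` of `S` are the first term of a progression `a, a + d, ..., a + (k - 1) d`
in `S` with `1 ≤ d ≤ (log Y) ^ B` and `H (a + j d) = h` for all `0 ≤ j < k`.

(2) There is a set `G` of at least `c (log Y) ^ m` vectors `g`, with `1 ≤ g_i ≤ C' log Y`, such that for each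
`g ∈ G` at least `Y / (log Y) ^ B` elements `a` of `S` are the first term of a progression of length `k` in `S`
with difference `1 ≤ d ≤ (log Y) ^ B`, all of whose terms are followed by the prime gaps `g_1, ..., g_m`.

(3), (4): Let `S` be a set of primes such that the number of its elements up to `Y` is at least `δ Y / log Y` for
arbitrarily large `Y`.

(3) Let `H p`, `p ∈ S`, be arbitrary vectors of `m` different integers `1 ≤ H p i ≤ C log p` for which all
`p + H p i` are prime. Then the set of the limit points of the vectors `H a / log a` which are repeated along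
progressions of length `k` in `S` with differences `d ≤ (log a) ^ B` has Lebesgue measure at least `c`.

(4) The set of the limit points of the normalised vectors of `m` consecutive prime gaps after `a` which are
repeated along progressions of length `k` in `S` with differences `d ≤ (log a) ^ B` has Lebesgue measure at
least `c`. -/
theorem result (k m A : ℕ) (hk : 2 ≤ k) (hA : 1 ≤ A) (δ C : ℝ) (hδ : 0 < δ) :
    ∃ B : ℕ, ∃ c C' : ℝ, 0 < c ∧
      (∃ Y₀ : ℕ, ∀ y Y : ℕ, Y₀ ≤ Y → y + Y ≤ Y ^ A →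
        ∀ S : Finset ℕ, (∀ p ∈ S, p.Prime ∧ y < p ∧ p ≤ y + Y) → δ * (Y / Real.log Y) ≤ S.card →
        -- (1)
        (∀ H : ℕ → Fin m → ℕ, (∀ p ∈ S, Function.Injective (H p) ∧
            ∀ i, 1 ≤ H p i ∧ (H p i : ℝ) ≤ C * Real.log Y ∧ (p + H p i).Prime) →
          ∃ G : Finset (Fin m → ℕ), c * Real.log Y ^ m ≤ G.card ∧ ∀ h ∈ G,
            ∃ W ⊆ S, Y / Real.log Y ^ B ≤ W.card ∧ ∀ a ∈ W, ∃ d : ℕ, 1 ≤ d ∧
              (d : ℝ) ≤ Real.log Y ^ B ∧ ∀ j < k, a + j * d ∈ S ∧ H (a + j * d) = h) ∧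
        -- (2)
        ∃ G : Finset (Fin m → ℕ), c * Real.log Y ^ m ≤ G.card ∧ ∀ g ∈ G,
          (∀ i, 1 ≤ g i ∧ (g i : ℝ) ≤ C' * Real.log Y) ∧
          ∃ W ⊆ S, Y / Real.log Y ^ B ≤ W.card ∧ ∀ a ∈ W, ∃ d : ℕ, 1 ≤ d ∧
            (d : ℝ) ≤ Real.log Y ^ B ∧ ∀ j < k, a + j * d ∈ S ∧ FollowedByGaps g (a + j * d)) ∧
      ∀ S : Set ℕ, (∀ p ∈ S, p.Prime) →
        (∀ N : ℕ, ∃ Y : ℕ, N ≤ Y ∧ δ * (Y / Real.log Y) ≤ (S ∩ Set.Iic Y).ncard) →
        -- (3)
        (∀ H : ℕ → Fin m → ℕ, (∀ p ∈ S, Function.Injective (H p) ∧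
            ∀ i, 1 ≤ H p i ∧ (H p i : ℝ) ≤ C * Real.log p ∧ (p + H p i).Prime) →
          ENNReal.ofReal c ≤ volume (LimitSet k B S H)) ∧
        -- (4)
        ENNReal.ofReal c ≤ volume (LimitSet k B S (gapVector m)) := by
  classical
  obtain ⟨B, c, C', hc, Y₀, hfin⟩ := finitary k m A hk hA δ (max C 0) hδ
  have hl0 : ∀ n : ℕ, 0 ≤ Real.log n := fun n => Real.log_natCast_nonneg n
  have hCle : ∀ {t : ℝ} (n : ℕ), t ≤ C * Real.log n → t ≤ max C 0 * Real.log n := fun n h =>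
    h.trans (mul_le_mul_of_nonneg_right (le_max_left _ _) (hl0 n))
  have hY3 : ∃ Y₃ : ℕ, ∀ Y : ℕ, Y₃ ≤ Y → 1 ≤ Real.log Y := Pool.Agent.Y880.RS.log_ev 1
  obtain ⟨Y₃, hY₃⟩ := hY3
  -- the finite sets
  have hSY : ∀ S : Set ℕ, (∀ p ∈ S, p.Prime) →
      (∀ N : ℕ, ∃ Y : ℕ, N ≤ Y ∧ δ * (Y / Real.log Y) ≤ (S ∩ Set.Iic Y).ncard) →
      ∀ N : ℕ, ∃ Y : ℕ, max N (max Y₀ (max Y₃ 1)) ≤ Y ∧ ∃ T : Finset ℕ, (∀ p, p ∈ T ↔ p ∈ S ∧ p ≤ Y) ∧
        δ * (Y / Real.log Y) ≤ T.card := by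
    intro S _ hd N
    obtain ⟨Y, hNY, hY⟩ := hd (max N (max Y₀ (max Y₃ 1)))
    have hf : (S ∩ Set.Iic Y).Finite := (Set.finite_Iic Y).subset Set.inter_subset_right
    refine ⟨Y, hNY, hf.toFinset, fun p => ?_, ?_⟩
    · rw [Set.Finite.mem_toFinset]; rfl
    · rwa [Set.ncard_eq_toFinset_card _ hf] at hY
  refine ⟨B + 1, c, C', hc, ⟨max Y₀ Y₃, ?_⟩, ?_⟩
  · intro y Y hY hyY S hS hSc
    obtain ⟨h1, G, hG, hGg⟩ := hfin y Y ((le_max_left _ _).trans hY) hyY S hS hSc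
    have hl := hY₃ Y ((le_max_right _ _).trans hY)
    have hp : Real.log Y ^ B ≤ Real.log Y ^ (B + 1) := pow_le_pow_right₀ hl (by omega)
    have hdv : (Y : ℝ) / Real.log Y ^ (B + 1) ≤ Y / Real.log Y ^ B :=
      div_le_div_of_nonneg_left (Nat.cast_nonneg _) (by positivity) hp
    constructor
    · intro H hH
      obtain ⟨G, hG, hGh⟩ := h1 H (fun p hp => ⟨(hH p hp).1, fun i =>
        ⟨((hH p hp).2 i).1, hCle Y ((hH p hp).2 i).2.1, ((hH p hp).2 i).2.2⟩⟩)
      refine ⟨G, hG, fun h hh => ?_⟩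
      obtain ⟨W, hW, hWc, hWd⟩ := hGh h hh
      refine ⟨W, hW, hdv.trans hWc, fun a ha => ?_⟩
      obtain ⟨d, hd1, hd2, hd3⟩ := hWd a ha
      exact ⟨d, hd1, hd2.trans hp, hd3⟩
    · refine ⟨G, hG, fun h hh => ⟨(hGg h hh).1, ?_⟩⟩
      obtain ⟨W, hW, hWc, hWd⟩ := (hGg h hh).2
      refine ⟨W, hW, hdv.trans hWc, fun a ha => ?_⟩
      obtain ⟨d, hd1, hd2, hd3⟩ := hWd a ha
      exact ⟨d, hd1, hd2.trans hp, hd3⟩
  · intro S hS hd
    have hpowA : ∀ Y : ℕ, 1 ≤ Y → 0 + Y ≤ Y ^ A := fun Y hY => by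
      rw [zero_add]
      exact Nat.le_self_pow (by omega) Y
    constructor
    · intro H hH
      show ENNReal.ofReal c ≤ volume (U621.RL.Lim k (B + 1) S H)
      apply U621.RL.vol_lim (C := max C 0) (by omega) (le_max_right _ _)
      intro N
      obtain ⟨Y, hNY, T, hT, hTc⟩ := hSY S hS hd N
      have hNY' := max_le_iff.1 hNY
      have hYY := max_le_iff.1 hNY'.2
      have hYY' := max_le_iff.1 hYY.2
      obtain ⟨h1, -⟩ := hfin 0 Y hYY.1 (hpowA Y hYY'.2) T (fun p hp => by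
        have h2 := (hT p).1 hp
        exact ⟨hS p h2.1, (hS p h2.1).pos, by omega⟩) hTc
      have hHT : ∀ p ∈ T, Function.Injective (H p) ∧
          ∀ i, 1 ≤ H p i ∧ (H p i : ℝ) ≤ max C 0 * Real.log Y ∧ (p + H p i).Prime := by
        intro p hp
        have h2 := (hT p).1 hp
        have h3 := hH p h2.1
        refine ⟨h3.1, fun i => ⟨(h3.2 i).1, ?_, (h3.2 i).2.2⟩⟩
        refine (hCle p (h3.2 i).2.1).trans ?_
        apply mul_le_mul_of_nonneg_left _ (le_max_right _ _)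
        apply Real.log_le_log
        · exact_mod_cast (hS p h2.1).pos
        · exact_mod_cast h2.2
      obtain ⟨G, hG, hGh⟩ := h1 H hHT
      refine ⟨Y, hNY'.1, G, hG, fun h hh => ?_⟩
      obtain ⟨W, hW, hWc, hWd⟩ := hGh h hh
      have hWT : ∀ a ∈ W, a ≤ Y := fun a ha => ((hT a).1 (hW ha)).2
      have hWS : ∀ a ∈ W, ∃ d : ℕ, 1 ≤ d ∧ (d : ℝ) ≤ Real.log Y ^ B ∧
          ∀ j < k, a + j * d ∈ S ∧ H (a + j * d) = h := by
        intro a ha
        obtain ⟨d, hd1, hd2, hd3⟩ := hWd a ha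
        exact ⟨d, hd1, hd2, fun j hj => ⟨((hT _).1 (hd3 j hj).1).1, (hd3 j hj).2⟩⟩
      refine ⟨fun i => ?_, W, hWT, hWc, hWS⟩
      have hl := hY₃ Y hYY'.1
      have hW0 : 0 < W.card := by
        have : (0 : ℝ) < W.card := lt_of_lt_of_le (by
          have : (0 : ℝ) < Y := by exact_mod_cast hYY'.2
          positivity) hWc
        exact_mod_cast this
      obtain ⟨a, ha⟩ := card_pos.1 hW0
      obtain ⟨d, _, _, hd3⟩ := hWd a ha
      obtain ⟨h4, h5⟩ := hd3 0 (by omega)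
      rw [← h5]
      exact ((hHT _ h4).2 i).2.1
    · show ENNReal.ofReal c ≤ volume (U621.RL.Lim k (B + 1) S (gapVector m))
      apply U621.RL.vol_lim (C := max C' 0) (by omega) (le_max_right _ _)
      intro N
      obtain ⟨Y, hNY, T, hT, hTc⟩ := hSY S hS hd N
      have hNY' := max_le_iff.1 hNY
      have hYY := max_le_iff.1 hNY'.2
      have hYY' := max_le_iff.1 hYY.2
      obtain ⟨-, G, hG, hGg⟩ := hfin 0 Y hYY.1 (hpowA Y hYY'.2) T (fun p hp => by
        have h2 := (hT p).1 hp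
        exact ⟨hS p h2.1, (hS p h2.1).pos, by omega⟩) hTc
      refine ⟨Y, hNY'.1, G, hG, fun g hg => ?_⟩
      obtain ⟨h1, W, hW, hWc, hWd⟩ := hGg g hg
      refine ⟨fun i => (h1 i).2.trans (mul_le_mul_of_nonneg_right (le_max_left _ _) (hl0 Y)), W,
        fun a ha => ((hT a).1 (hW ha)).2, hWc, fun a ha => ?_⟩
      obtain ⟨d, hd1, hd2, hd3⟩ := hWd a ha
      exact ⟨d, hd1, hd2, fun j hj => ⟨((hT _).1 (hd3 j hj).1).1, gapVector_eq (hd3 j hj).2⟩⟩

end Pool.Agent.Results.MP_8923e7_nt.LimitPatterns
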